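import Pool.Agent.Helper71.PR.Basic

/-!
# Project PR (MP_af9e5e_al), packet MIN: density of compact flats implies minimality on the flag variety
-/

set_option autoImplicit false

namespace Pool.Agent.Helper86.PR

open Matrix Filter Topology
open Pool.Agent.Helper71.PR

/-- changing a frame by an invertible diagonal matrix does not change the flat -/
theorem flat_mul_diagonal {n : ℕ} {Γ : Subgroup (SLn n)} {k : Mt n} (h : Flat Γ k) (δ : Fin n → ℝ) (hδ : ∀ i, δ i ≠ 0) :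
    Flat Γ (k * diagonal δ) := by
  obtain ⟨R, hR⟩ := h
  refine ⟨R, fun y hy => ?_⟩
  obtain ⟨γ, hγ, μ, h1, h2⟩ := hR y hy
  refine ⟨γ, hγ, μ, ?_, h2⟩
  have hdd : diagonal δ * diagonal (fun i => (δ i)⁻¹) = (1 : Mt n) := by
    rw [Matrix.diagonal_mul_diagonal, ← Matrix.diagonal_one]
    congr 1
    funext i
    exact mul_inv_cancel₀ (hδ i)
  have hinv : (diagonal δ : Mt n)⁻¹ = diagonal (fun i => (δ i)⁻¹) := Matrix.inv_eq_right_inv hdd
  rw [h1, Matrix.mul_inv_rev, hinv]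
  have h3 : k * diagonal δ * diagonal μ * (diagonal (fun i => (δ i)⁻¹) * k⁻¹) =
      k * (diagonal δ * diagonal μ * diagonal (fun i => (δ i)⁻¹)) * k⁻¹ := by
    simp only [Matrix.mul_assoc]
  rw [h3]
  have h4 : (diagonal δ * diagonal μ * diagonal (fun i => (δ i)⁻¹) : Mt n) = diagonal μ := by
    rw [Matrix.diagonal_mul_diagonal, Matrix.diagonal_mul_diagonal]
    congr 1
    funext i
    field_simp [hδ i]
  rw [h4]

/-- a frame of a compact flat, near `h`, in general position with respect to `g` -/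
theorem exists_frame₀ (h1 : G_GEN) {n : ℕ} {Γ : Subgroup (SLn n)} (hD : Dens Γ) (g h : Mt n) (hg : g.det ≠ 0)
    (hh : h.det ≠ 0) {ε : ℝ} (hε : 0 < ε) :
    ∃ k : Mt n, k.det ≠ 0 ∧ Flat Γ k ∧ near k h ε ∧ ∀ j, ld j (k⁻¹ * g) ≠ 0 := by
  obtain ⟨k₁, hk1, hk2, hk3⟩ := h1 n g h hg hh (ε / 2) (by positivity)
  have hp : ∀ m : ℕ, (0 : ℝ) < 1 / ((m : ℝ) + 1) := fun m => by positivity
  choose K hK1 hK2 hK3 using fun m : ℕ => hD k₁ hk1 (1 / ((m : ℝ) + 1)) (hp m)
  have hKt : Tendsto K atTop (𝓝 k₁) := tendsto_of_near tendsto_const_nhds hK3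
  have hKi : Tendsto (fun m => (K m)⁻¹ * g) atTop (𝓝 (k₁⁻¹ * g)) :=
    ((continuous_id.matrix_mul continuous_const).tendsto (k₁⁻¹)).comp (tendsto_inv_mt hKt hk1)
  have hKl : ∀ j, ∀ᶠ m in atTop, ld j ((K m)⁻¹ * g) ≠ 0 := fun j =>
    (((ld_continuous j).tendsto _).comp hKi).eventually_ne (hk3 j)
  have h5 := (eventually_near hKt (half_pos hε)).and (Filter.eventually_all.2 hKl)
  obtain ⟨m, hm1, hm2⟩ := h5.exists
  refine ⟨K m, hK1 m, hK2 m, ?_, hm2⟩
  have := hm1.trans hk2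
  rwa [add_halves] at this

/-- the same with a frame of determinant one -/
theorem exists_frame (h1 : G_GEN) {n : ℕ} (hn : 1 ≤ n) {Γ : Subgroup (SLn n)} (hD : Dens Γ) (g h : SLn n) {ε : ℝ}
    (hε : 0 < ε) :
    ∃ k : Mt n, k.det = 1 ∧ Flat Γ k ∧ near k h.1 ε ∧ ∀ j, ld j (k⁻¹ * g.1) ≠ 0 := by
  have hgd : g.1.det ≠ 0 := by rw [g.2]; exact one_ne_zero
  have hhd : h.1.det ≠ 0 := by rw [h.2]; exact one_ne_zero
  have hp : ∀ m : ℕ, (0 : ℝ) < 1 / ((m : ℝ) + 1) := fun m => by positivity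
  choose K hK1 hK2 hK3 hK4 using fun m : ℕ => exists_frame₀ h1 hD g.1 h.1 hgd hhd (hp m)
  have hKt : Tendsto K atTop (𝓝 h.1) := tendsto_of_near tendsto_const_nhds hK3
  let i0 : Fin n := ⟨0, hn⟩
  let δ : ℕ → Fin n → ℝ := fun m i => if i = i0 then (K m).det⁻¹ else 1
  have hδ : ∀ m i, δ m i ≠ 0 := by
    intro m i
    show (if i = i0 then (K m).det⁻¹ else 1) ≠ 0
    split_ifs
    · exact inv_ne_zero (hK1 m)
    · exact one_ne_zero
  have hprod : ∀ m, ∏ i, δ m i = (K m).det⁻¹ := by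
    intro m
    rw [Finset.prod_eq_single i0]
    · exact if_pos rfl
    · intro b _ hb
      exact if_neg hb
    · intro h; exact absurd (Finset.mem_univ i0) h
  have hdt : Tendsto (fun m => (diagonal (δ m) : Mt n)) atTop (𝓝 1) := by
    rw [tendsto_mt_iff]
    intro i j
    by_cases hij : i = j
    · subst hij
      simp only [Matrix.diagonal_apply_eq, Matrix.one_apply_eq]
      by_cases hi : i = i0
      · have e : (fun m => δ m i) = fun m => (K m).det⁻¹ := by
          funext m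
          exact if_pos hi
        rw [e]
        have h6 := (tendsto_det_mt hKt).inv₀ hhd
        rw [h.2, inv_one] at h6
        exact h6
      · have e : (fun m => δ m i) = fun _ => (1 : ℝ) := by
          funext m
          exact if_neg hi
        rw [e]
        exact tendsto_const_nhds
    · simp only [Matrix.diagonal_apply_ne _ hij, Matrix.one_apply_ne hij]
      exact tendsto_const_nhds
  have hKd : Tendsto (fun m => K m * diagonal (δ m)) atTop (𝓝 h.1) := by
    have h7 : Tendsto (fun m => K m * diagonal (δ m)) atTop (𝓝 (h.1 * 1)) := by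
      have hc : Continuous (fun p : Mt n × Mt n => p.1 * p.2) := continuous_fst.matrix_mul continuous_snd
      exact (hc.tendsto (h.1, 1)).comp (hKt.prodMk_nhds hdt)
    rwa [mul_one] at h7
  obtain ⟨m, hm⟩ := (eventually_near hKd hε).exists
  refine ⟨K m * diagonal (δ m), ?_, flat_mul_diagonal (hK2 m) _ (hδ m), hm, fun j => ?_⟩
  · rw [Matrix.det_mul, Matrix.det_diagonal, hprod, mul_inv_cancel₀ (hK1 m)]
  · have hdd : diagonal (δ m) * diagonal (fun i => (δ m i)⁻¹) = (1 : Mt n) := by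
      rw [Matrix.diagonal_mul_diagonal, ← Matrix.diagonal_one]
      congr 1
      funext i
      exact mul_inv_cancel₀ (hδ m i)
    have hinv : (diagonal (δ m) : Mt n)⁻¹ = diagonal (fun i => (δ m i)⁻¹) := Matrix.inv_eq_right_inv hdd
    rw [Matrix.mul_inv_rev, hinv, Matrix.mul_assoc, ld_lowT_mul' _ (lowT_diagonal _)]
    refine mul_ne_zero (Finset.prod_ne_zero_iff.2 fun i _ => ?_) (hK4 m j)
    rw [Matrix.diagonal_apply_eq]
    exact inv_ne_zero (hδ m i)

/-- powers of a diagonalizable element of the group -/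
theorem coe_pow_eq {n : ℕ} (γ : SLn n) (k : Mt n) (μ : Fin n → ℝ) (hk : IsUnit k.det)
    (h : γ.1 = k * diagonal μ * k⁻¹) (m : ℕ) :
    (γ ^ m).1 = k * diagonal (fun i => μ i ^ m) * k⁻¹ := by
  induction m with
  | zero =>
    simp only [pow_zero]
    rw [Matrix.diagonal_one, mul_one, Matrix.mul_nonsing_inv k hk]
    rfl
  | succ m ih =>
    have e : (γ ^ (m + 1)).1 = (γ ^ m).1 * γ.1 := by
      rw [pow_succ]; rfl
    rw [e, ih, h]
    have h3 : k * diagonal (fun i => μ i ^ m) * k⁻¹ * (k * diagonal μ * k⁻¹) =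
        k * diagonal (fun i => μ i ^ m) * (k⁻¹ * k) * diagonal μ * k⁻¹ := by
      simp only [Matrix.mul_assoc]
    rw [h3, Matrix.nonsing_inv_mul k hk, mul_one, Matrix.mul_assoc k, Matrix.diagonal_mul_diagonal]
    congr 2

theorem min_lem (h1 : G_GEN) (h2 : G_LDU1) (h3 : G_CHB) (h4 : G_CJ) : G_MIN := by
  intro n hn Γ hD g h ε hε
  obtain ⟨k, hk1, hk2, hk3, hk4⟩ := exists_frame h1 hn hD g h (half_pos hε)
  have hk0 : k.det ≠ 0 := by rw [hk1]; exact one_ne_zero
  have hku : IsUnit k.det := isUnit_iff_ne_zero.2 hk0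
  obtain ⟨L, U, d, hL, hU, hd, hY, -, -⟩ := h2 n (k⁻¹ * g.1) hk4
  obtain ⟨γ, hγ, μ, ⟨-, hγk, hμ⟩, hμ0⟩ := h3 n hn Γ k hk0 hk2
  have hgap : Gap (fun m i => μ i ^ m) := gap_pow μ hμ0 hμ
  have hc := (h4 n _ hgap).1 (fun _ => L) L (fun _ => hL) tendsto_const_nhds
  have hc2 : Tendsto (fun m : ℕ => k * (diagonal (fun i => μ i ^ m) * L * diagonal (fun i => (μ i ^ m)⁻¹))) atTop
      (𝓝 (k * 1)) :=
    ((continuous_const.matrix_mul continuous_id).tendsto (1 : Mt n)).comp hc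
  rw [mul_one] at hc2
  obtain ⟨m, hm⟩ := (eventually_near hc2 (half_pos hε)).exists
  -- the upper triangular matrix
  obtain ⟨B, hB⟩ : ∃ B : Mt n, B = U⁻¹ * diagonal (fun i => (d i)⁻¹) * diagonal (fun i => (μ i ^ m)⁻¹) := ⟨_, rfl⟩
  have hg : g.1 = k * (L * diagonal d * U) := by
    rw [← hY, ← Matrix.mul_assoc, Matrix.mul_nonsing_inv k hku, one_mul]
  have hdd : diagonal d * diagonal (fun i => (d i)⁻¹) = (1 : Mt n) := by
    rw [Matrix.diagonal_mul_diagonal, ← Matrix.diagonal_one]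
    congr 1
    funext i
    exact mul_inv_cancel₀ (hd i)
  have key : (γ ^ m).1 * g.1 * B = k * (diagonal (fun i => μ i ^ m) * L * diagonal (fun i => (μ i ^ m)⁻¹)) := by
    rw [coe_pow_eq γ k μ hku hγk m, hg, hB]
    have e1 : k * diagonal (fun i => μ i ^ m) * k⁻¹ * (k * (L * diagonal d * U)) *
        (U⁻¹ * diagonal (fun i => (d i)⁻¹) * diagonal (fun i => (μ i ^ m)⁻¹)) =
        k * diagonal (fun i => μ i ^ m) * (k⁻¹ * k) * L * (diagonal d * (U * U⁻¹) * diagonal (fun i => (d i)⁻¹)) *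
          diagonal (fun i => (μ i ^ m)⁻¹) := by
      simp only [Matrix.mul_assoc]
    rw [e1, Matrix.nonsing_inv_mul k hku, Matrix.mul_nonsing_inv U hU.isUnit, mul_one, mul_one, hdd, mul_one]
    simp only [Matrix.mul_assoc]
  have hBdet : B.det = 1 := by
    have h5 := congrArg Matrix.det key
    have h6 : ((γ ^ m).1 * g.1 * B).det = B.det := by
      rw [Matrix.det_mul, Matrix.det_mul, (γ ^ m).2, g.2, one_mul, one_mul]
    rw [h6, Matrix.det_mul, Matrix.det_mul, Matrix.det_mul,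
      hk1, hL.det, Matrix.det_diagonal, Matrix.det_diagonal, one_mul, mul_one, ← Finset.prod_mul_distrib] at h5
    rw [h5]
    exact Finset.prod_eq_one fun i _ => mul_inv_cancel₀ (pow_ne_zero m (hμ0 i))
  have hBup : ∀ i j, j < i → B i j = 0 := by
    intro i j hij
    rw [hB, Matrix.mul_diagonal, Matrix.mul_diagonal, hU.inv.2 i j hij, zero_mul, zero_mul]
  refine ⟨γ ^ m, Γ.pow_mem hγ m, ⟨B, hBdet⟩, hBup, ?_⟩
  show near ((γ ^ m).1 * g.1 * B) h.1 ε
  rw [key]
  have := hm.trans hk3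
  rwa [add_halves] at this

end Pool.Agent.Helper86.PR
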